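import Pool.Agent.Lib.helper3.Rup

set_option autoImplicit false

namespace Pool.Agent.H.MP_a55661_co
open Pool.Agent.Lib.helper3.Rup

/-- closed adjacency `C` of a graph without induced six-vertex path, `col x` the dominator of `x` -/
structure Good {V : Type} (C : V → V → Prop) (col : V → V) : Prop where
  symm : ∀ x y, C x y → C y x
  refl : ∀ x, C x x
  p6 : ∀ a b c d e f, C a b → C b c → C c d → C d e → C e f →
    C a c ∨ C a d ∨ C a e ∨ C a f ∨ C b d ∨ C b e ∨ C b f ∨ C c e ∨ C c f ∨ C d f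
  dom : ∀ x, C x (col x)
  uniq : ∀ x a b, C x (col a) → C x (col b) → col a = col b

def Far {V : Type} (C : V → V → Prop) (a b : V) : Prop := ∀ x, C x a → ¬ C x b
def Near {V : Type} (C : V → V → Prop) (a b : V) : Prop := ∃ x, C x a ∧ C x b

def fst (l : List ℕ) (t : ℕ) : ℕ := l.getD t 0 / 8 % 8
def snd (l : List ℕ) (t : ℕ) : ℕ := l.getD t 0 % 8

structure Loc {V : Type} (C : V → V → Prop) (col : V → V) (F R E X : List ℕ) (u w : ℕ → V) : Prop where
  g : Good C col
  hF : ∀ t < F.length, Far C (u (fst F t)) (u (snd F t))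
  hR : ∀ t < R.length, C (w t) (u (fst R t)) ∧ C (w t) (u (snd R t))
  hE : ∀ t < E.length, col (u (fst E t)) = col (u (snd E t))
  hX : ∀ t < X.length, col (u (fst X t)) ≠ col (u (snd X t))

def phi {V : Type} (col : V → V) (u w : ℕ → V) (i : ℕ) : V :=
  if i < 8 then u i else if i < 16 then col (u (i - 8)) else w (i - 16)

def val {V : Type} (C : V → V → Prop) (col : V → V) (u w : ℕ → V) (k : ℕ) : Prop :=
  C (phi col u w (k / 32)) (phi col u w (k % 32))

def P (x y : ℕ) : ℕ := 2 * (32 * min x y + max x y) + 2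
def N (x y : ℕ) : ℕ := 2 * (32 * min x y + max x y) + 3

theorem val_eq {V : Type} {C : V → V → Prop} {col : V → V} (h : Good C col) (u w : ℕ → V) {x y : ℕ}
    (hx : x < 32) (hy : y < 32) :
    val C col u w (32 * min x y + max x y) ↔ C (phi col u w x) (phi col u w y) := by
  unfold val
  rcases le_total x y with hxy | hxy
  · rw [min_eq_left hxy, max_eq_right hxy, show (32 * x + y) / 32 = x by omega,
      show (32 * x + y) % 32 = y by omega]
  · rw [min_eq_right hxy, max_eq_left hxy, show (32 * y + x) / 32 = y by omega,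
      show (32 * y + x) % 32 = x by omega]
    exact ⟨h.symm _ _, h.symm _ _⟩

theorem WP {V : Type} {C : V → V → Prop} {col : V → V} (h : Good C col) (u w : ℕ → V) {x y : ℕ}
    (hx : x < 32) (hy : y < 32) :
    W (val C col u w) (P x y) ↔ C (phi col u w x) (phi col u w y) := by
  rw [P, W_pos, val_eq h u w hx hy]

theorem WN {V : Type} {C : V → V → Prop} {col : V → V} (h : Good C col) (u w : ℕ → V) {x y : ℕ}
    (hx : x < 32) (hy : y < 32) :
    W (val C col u w) (N x y) ↔ ¬ C (phi col u w x) (phi col u w y) := by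
  rw [N, W_neg, val_eq h u w hx hy]

def gen' (F R E X : List ℕ) (ty a b c d e f : ℕ) : ℕ :=
  if ty = 0 then cl [N a b, P a c, P a d, P a e, P a f, N b c, P b d, P b e, P b f, N c d, P c e, P c f,
    N d e, P d f, N e f]
  else if ty = 1 then (if a < F.length then cl [N b (fst F a), N b (snd F a)] else 1)
  else if ty = 2 then (if a < 8 ∧ b < 8 then cl [N c (8 + a), N c (8 + b), P (8 + a) (8 + b)] else 1)
  else if ty = 3 then (if a < 8 ∧ b < 8 then cl [N (8 + a) (8 + b), N c (8 + a), P c (8 + b)] else 1)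
  else if ty = 4 then (if a = 0 then cl [P b b] else if a = 1 then (if b < 8 then cl [P b (8 + b)] else 1)
    else if b < R.length ∧ b < 16 then
      (if a = 2 then cl [P (16 + b) (fst R b)] else cl [P (16 + b) (snd R b)]) else 1)
  else if ty = 5 then (if a < E.length then cl [P (8 + fst E a) (8 + snd E a)] else 1)
  else (if a < X.length then cl [N (8 + fst X a) (8 + snd X a)] else 1)

def gen (F R E X : List ℕ) (p : ℕ) : ℕ :=
  gen' F R E X (p % 8) (p / 8 % 32) (p / 256 % 32) (p / 8192 % 32) (p / 262144 % 32) (p / 8388608 % 32)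
    (p / 268435456 % 32)

theorem fst_lt (l : List ℕ) (t : ℕ) : fst l t < 8 := Nat.mod_lt _ (by norm_num)
theorem snd_lt (l : List ℕ) (t : ℕ) : snd l t < 8 := Nat.mod_lt _ (by norm_num)

theorem phi_u {V : Type} (col : V → V) (u w : ℕ → V) {a : ℕ} (h : a < 8) : phi col u w a = u a := by
  simp [phi, h]

theorem phi_c {V : Type} (col : V → V) (u w : ℕ → V) {a : ℕ} (h : a < 8) :
    phi col u w (8 + a) = col (u a) := by
  have h1 : ¬ 8 + a < 8 := by omega
  have h2 : 8 + a < 16 := by omega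
  simp [phi, h1, h2]

theorem phi_w {V : Type} (col : V → V) (u w : ℕ → V) (a : ℕ) : phi col u w (16 + a) = w a := by
  have h1 : ¬ 16 + a < 8 := by omega
  have h2 : ¬ 16 + a < 16 := by omega
  simp [phi, h1, h2]

theorem gen_ok {V : Type} {C : V → V → Prop} {col : V → V} {F R E X : List ℕ} {u w : ℕ → V}
    (h : Loc C col F R E X u w) (p : ℕ) : S (W (val C col u w)) (gen F R E X p) := by
  unfold gen
  have ha : p / 8 % 32 < 32 := Nat.mod_lt _ (by norm_num)
  have hb : p / 256 % 32 < 32 := Nat.mod_lt _ (by norm_num)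
  have hc : p / 8192 % 32 < 32 := Nat.mod_lt _ (by norm_num)
  have hd : p / 262144 % 32 < 32 := Nat.mod_lt _ (by norm_num)
  have he : p / 8388608 % 32 < 32 := Nat.mod_lt _ (by norm_num)
  have hf : p / 268435456 % 32 < 32 := Nat.mod_lt _ (by norm_num)
  generalize p % 8 = ty, p / 8 % 32 = a, p / 256 % 32 = b, p / 8192 % 32 = c, p / 262144 % 32 = d,
    p / 8388608 % 32 = e, p / 268435456 % 32 = f at *
  have g := h.g
  have l8 : ∀ {x}, x < 8 → x < 32 := fun h => by omega
  have m8 : ∀ {x}, x < 8 → 8 + x < 32 := fun h => by omega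
  unfold gen'
  split_ifs with h1 h1 h2 h1 h2 h1 h2 h1 h2 h3 h4 h4 h5 h1 h2 h2 <;> try exact S_one _
  all_goals rw [S_cl]
  all_goals simp only [List.mem_cons, List.not_mem_nil, or_false, exists_eq_or_imp, exists_eq_left]
  · simp only [WP g, WN g, ha, hb, hc, hd, he, hf]
    have := g.p6 (phi col u w a) (phi col u w b) (phi col u w c) (phi col u w d) (phi col u w e)
      (phi col u w f)
    tauto
  · rw [WN g u w hb (l8 (fst_lt _ _)), WN g u w hb (l8 (snd_lt _ _)), phi_u _ _ _ (fst_lt _ _),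
      phi_u _ _ _ (snd_lt _ _)]
    have := h.hF a h2 (phi col u w b)
    tauto
  · rw [WN g u w hc (m8 h2.1), WN g u w hc (m8 h2.2), WP g u w (m8 h2.1) (m8 h2.2), phi_c _ _ _ h2.1,
      phi_c _ _ _ h2.2]
    by_contra k
    push Not at k
    have := g.uniq _ _ _ k.1 k.2.1
    exact k.2.2 (this ▸ g.refl _)
  · rw [WN g u w hc (m8 h2.1), WP g u w hc (m8 h2.2), WN g u w (m8 h2.1) (m8 h2.2), phi_c _ _ _ h2.1,
      phi_c _ _ _ h2.2]
    by_contra k
    push Not at k
    have := g.uniq _ _ _ (g.refl _) k.1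
    exact k.2.2 (this ▸ k.2.1)
  · rw [WP g u w hb hb]
    exact g.refl _
  · rw [WP g u w hb (m8 h4), phi_c _ _ _ h4, phi_u _ _ _ h4]
    exact g.dom _
  · rw [WP g u w (by omega) (l8 (fst_lt _ _)), phi_w, phi_u _ _ _ (fst_lt _ _)]
    exact (h.hR b h4.1).1
  · rw [WP g u w (by omega) (l8 (snd_lt _ _)), phi_w, phi_u _ _ _ (snd_lt _ _)]
    exact (h.hR b h4.1).2
  · rw [WP g u w (m8 (fst_lt _ _)) (m8 (snd_lt _ _)), phi_c _ _ _ (fst_lt _ _), phi_c _ _ _ (snd_lt _ _),
      h.hE a h2]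
    exact g.refl _
  · rw [WN g u w (m8 (fst_lt _ _)) (m8 (snd_lt _ _)), phi_c _ _ _ (fst_lt _ _), phi_c _ _ _ (snd_lt _ _)]
    exact fun k => h.hX a h2 (g.uniq _ _ _ (g.refl _) k)

/-- a long odd cycle of far pairs whose other pairs are near -/
structure Cyc {V : Type} (C : V → V → Prop) (n : ℤ) (u : ℤ → V) : Prop where
  per : ∀ s, u (s + n) = u s
  far : ∀ s, Far C (u s) (u (s + 1))
  near : ∀ s t, s + 2 ≤ t → t + 2 ≤ s + n → Near C (u s) (u t)

theorem Cyc.loc {V : Type} {C : V → V → Prop} {col : V → V} (g : Good C col) {n : ℤ} {u : ℤ → V}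
    (h : Cyc C n u) (F R E X : List ℕ) (q : List ℤ)
    (hF : ∀ e ∈ F, q.getD (e / 8 % 8) 0 = q.getD (e % 8) 0 + 1 ∨ q.getD (e % 8) 0 = q.getD (e / 8 % 8) 0 + 1 ∨
      q.getD (e % 8) 0 + 1 = q.getD (e / 8 % 8) 0 + n)
    (hR : ∀ e ∈ R, (q.getD (e / 8 % 8) 0 + 2 ≤ q.getD (e % 8) 0 ∧ q.getD (e % 8) 0 + 2 ≤ q.getD (e / 8 % 8) 0 + n) ∨
      (q.getD (e % 8) 0 + 2 ≤ q.getD (e / 8 % 8) 0 ∧ q.getD (e / 8 % 8) 0 + 2 ≤ q.getD (e % 8) 0 + n))
    (hE : ∀ e ∈ E, col (u (q.getD (e / 8 % 8) 0)) = col (u (q.getD (e % 8) 0)))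
    (hX : ∀ e ∈ X, col (u (q.getD (e / 8 % 8) 0)) ≠ col (u (q.getD (e % 8) 0))) :
    ∃ w, Loc C col F R E X (fun i => u (q.getD i 0)) w := by
  have m : ∀ (l : List ℕ) t, t < l.length → l.getD t 0 ∈ l := fun l t ht => by
    rw [List.getD_eq_getElem _ _ ht]
    exact List.getElem_mem ht
  have : ∀ t, ∃ z, t < R.length → C z (u (q.getD (fst R t) 0)) ∧ C z (u (q.getD (snd R t) 0)) := by
    intro t
    by_cases ht : t < R.length
    · rcases hR _ (m R t ht) with k | k
      · obtain ⟨z, hz⟩ := h.near _ _ k.1 k.2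
        exact ⟨z, fun _ => hz⟩
      · obtain ⟨z, hz⟩ := h.near _ _ k.1 k.2
        exact ⟨z, fun _ => ⟨hz.2, hz.1⟩⟩
    · exact ⟨u 0, fun k => absurd k ht⟩
  choose w hw using this
  refine ⟨w, g, fun t ht => ?_, hw, fun t ht => hE _ (m E t ht), fun t ht => hX _ (m X t ht)⟩
  show Far C (u (q.getD (F.getD t 0 / 8 % 8) 0)) (u (q.getD (F.getD t 0 % 8) 0))
  rcases hF _ (m F t ht) with k | k | k
  · rw [k]
    exact fun x a b => h.far _ x b a
  · rw [k]
    exact h.far _
  · rw [← h.per (q.getD (F.getD t 0 / 8 % 8) 0), ← k]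
    exact fun x a b => h.far _ x b a

end Pool.Agent.H.MP_a55661_co
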