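import Mathlib

set_option autoImplicit false

namespace Pool.Agent.H.MP_a55661_co

/-- facts on the colours along a cycle of length `n` -/
structure Fa {α : Type} (n : ℤ) (c : ℤ → α) : Prop where
  per : ∀ s t, t = s + n → c t = c s
  ne : ∀ s t, t = s + 1 → c s ≠ c t
  a1 : ∀ i i' j j', i' = i + 1 → j' = j + 1 → i + 3 ≤ j → j + 3 ≤ i + n →
    c i = c j ∨ c i = c j' ∨ c i' = c j ∨ c i' = c j'

theorem Fa.alt {α : Type} {n : ℤ} {c : ℤ → α} (h : Fa n c) {a : α} {p q : ℤ}
    (H : ∀ j, p ≤ j → j ≤ q → c j = a ∨ c (j + 1) = a) (k : ℕ) :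
    ∀ t, t = p + 2 * k → t ≤ q + 1 → (c t = a ↔ c p = a) := by
  induction k with
  | zero => intro t ht _; rw [ht]; simp
  | succ k ih =>
    intro t ht h2
    push_cast at ht
    have i1 := ih (t - 2) (by omega) (by omega)
    have h3 := H (t - 2) (by omega) (by omega)
    have h4 := H (t - 2 + 1) (by omega) (by omega)
    have h5 := h.ne (t - 2) (t - 2 + 1) rfl
    have h6 := h.ne (t - 2 + 1) t (by omega)
    rw [show t - 2 + 1 + 1 = t by omega] at h4
    grind

theorem step2 {α : Type} {c : ℤ → α} {p q : ℤ} (H : ∀ j, p ≤ j → j + 2 ≤ q → c (j + 2) = c j) (k : ℕ) :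
    ∀ t, t = p + 2 * k → t ≤ q → c t = c p := by
  induction k with
  | zero => intro t ht _; rw [ht]; simp
  | succ k ih =>
    intro t ht h2
    push_cast at ht
    rw [← ih (t - 2) (by omega) (by omega), ← H (t - 2) (by omega) (by omega)]
    congr 1
    omega

theorem seven {α : Type} {c : ℤ → α} (h : Fa 7 c)
    (ka : ∀ i, c i = c (i + 3) → c (i + 1) = c (i + 4) → c (i + 2) = c (i + 5) → False)
    (kb : ∀ i, c i = c (i + 3) → c (i + 2) = c (i + 4) → c i = c (i + 5) → c (i + 1) = c (i + 6) → False)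
    (kc : ∀ i, c i = c (i + 3) → c (i + 1) = c (i + 4) → c i = c (i + 5) → c (i + 1) = c (i + 6) → False) :
    False := by
  by_cases hd : ∃ i, c i = c (i + 3)
  · obtain ⟨i, hi⟩ := hd
    have a0 := ka i
    have a1 := ka (i - 1)
    have a2 := ka (i - 2)
    have b0 := kb i
    have c0 := kc i
    have c1 := kc (i - 1)
    have p1 := h.per (i - 1) (i + 6) (by omega)
    have p2 := h.per (i - 2) (i + 5) (by omega)
    have p3 := h.per i (i + 7) (by omega)
    rw [show i - 1 + 3 = i + 2 by omega, show i - 1 + 1 = i by omega, show i - 1 + 4 = i + 3 by omega,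
      show i - 1 + 5 = i + 4 by omega] at a1 c1
    rw [show i - 1 + 2 = i + 1 by omega] at a1
    rw [show i - 1 + 6 = i + 5 by omega] at c1
    rw [show i - 2 + 3 = i + 1 by omega, show i - 2 + 1 = i - 1 by omega, show i - 2 + 4 = i + 2 by omega,
      show i - 2 + 2 = i by omega, show i - 2 + 5 = i + 3 by omega] at a2
    have n0 := h.ne i (i + 1) (by omega)
    have n1 := h.ne (i + 1) (i + 2) (by omega)
    have n2 := h.ne (i + 2) (i + 3) (by omega)
    have n3 := h.ne (i + 3) (i + 4) (by omega)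
    have n4 := h.ne (i + 4) (i + 5) (by omega)
    have n5 := h.ne (i + 5) (i + 6) (by omega)
    have n6 := h.ne (i + 6) (i + 7) (by omega)
    have e1 := h.a1 i (i + 1) (i + 4) (i + 5) (by omega) (by omega) (by omega) (by omega)
    have e2 := h.a1 (i + 1) (i + 2) (i + 4) (i + 5) (by omega) (by omega) (by omega) (by omega)
    have e3 := h.a1 (i + 1) (i + 2) (i + 5) (i + 6) (by omega) (by omega) (by omega) (by omega)
    have e4 := h.a1 (i + 2) (i + 3) (i + 5) (i + 6) (by omega) (by omega) (by omega) (by omega)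
    rw [← p1] at a1 c1 a2
    rw [← p2] at a2
    rw [p3] at n6
    generalize c i = x0, c (i + 1) = x1, c (i + 2) = x2, c (i + 3) = x3, c (i + 4) = x4, c (i + 5) = x5,
      c (i + 6) = x6 at *
    grind
  · push Not at hd
    have k : ∀ i, c (i + 2) = c i := by
      intro i
      have e := h.a1 (i - 1) i (i + 2) (i + 3) (by omega) (by omega) (by omega) (by omega)
      have d1 := hd (i - 1)
      have d2 := hd (i + 3)
      have d3 := hd i
      have p1 := h.per (i - 1) (i + 3 + 3) (by omega)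
      rw [show i - 1 + 3 = i + 2 by omega] at d1
      grind
    have h1 := step2 (c := c) (p := 1) (q := 7) (fun j _ _ => k j) 3 7 (by norm_num) le_rfl
    exact h.ne 0 1 rfl ((h.per 0 7 rfl).symm.trans h1)

/-- further facts, valid on cycles of length at least nine -/
structure Fb {α : Type} (n : ℤ) (c : ℤ → α) : Prop extends Fa n c where
  a2 : ∀ i i' j j' k k' p q r, (i = p ∧ i' = p + 1 ∨ i' = p ∧ i = p + 1) →
    (j = q ∧ j' = q + 1 ∨ j' = q ∧ j = q + 1) → (k = r ∧ k' = r + 1 ∨ k' = r ∧ k = r + 1) →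
    p + 3 ≤ q → q + 3 ≤ p + n → (q + 3 ≤ r ∧ r + 3 ≤ p + n ∨ r + 3 ≤ p ∧ q + 3 ≤ r + n) →
    c i = c j → c i' = c k → c j' = c k' → c i' = c j'
  a3 : ∀ i j j' r, (j = r ∧ j' = r + 1 ∨ j' = r ∧ j = r + 1) → i + 5 ≤ r → r + 3 ≤ i + n →
    c (i + 1) = c j → c (i + 2) = c j' → c i = c (i + 2) ∨ c (i + 1) = c (i + 3)
  a5 : ∀ i j k l, (j + 1 = k ∧ l = k + 1 ∨ l + 1 = k ∧ j = k + 1) → i + 6 ≤ k → k + 3 ≤ i + n →
    c i = c (i + 3) → c (i + 1) = c j → c i = c k → c (i + 2) = c l → False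
  a7 : ∀ i, c i = c (i + 2) → c i = c (i + 5) → c (i + 1) = c (i + 4) → c (i + 1) = c (i + 6) → False

theorem Fb.shift {α : Type} {n : ℤ} {c : ℤ → α} (h : Fb n c) (m : ℤ) : Fb n (fun t => c (t + m)) where
  per s t e := h.per _ _ (by omega)
  ne s t e := h.ne _ _ (by omega)
  a1 i i' j j' e1 e2 e3 e4 := h.a1 _ _ _ _ (by omega) (by omega) (by omega) (by omega)
  a2 i i' j j' k k' p q r e1 e2 e3 e4 e5 e6 :=
    h.a2 _ _ _ _ _ _ (p + m) (q + m) (r + m) (by omega) (by omega) (by omega) (by omega) (by omega) (by omega)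
  a3 i j j' r e1 e2 e3 := by
    have := h.a3 (i + m) (j + m) (j' + m) (r + m) (by omega) (by omega) (by omega)
    simpa only [add_right_comm i m] using this
  a5 i j k l e1 e2 e3 := by
    have := h.a5 (i + m) (j + m) (k + m) (l + m) (by omega) (by omega) (by omega)
    simpa only [add_right_comm i m] using this
  a7 i := by
    have := h.a7 (i + m)
    simpa only [add_right_comm i m] using this

theorem Fb.bad {α : Type} {n : ℤ} {c : ℤ → α} (h : Fb n c) (h1 : c 0 ≠ c 2) (h2 : c 1 ≠ c 3)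
    (j : ℤ) (l : 5 ≤ j) (r : j + 3 ≤ n) :
    (c 0 = c j ∨ c 0 = c (j + 1) ∨ c 1 = c j ∨ c 1 = c (j + 1)) ∧
    (c 1 = c j ∨ c 1 = c (j + 1) ∨ c 2 = c j ∨ c 2 = c (j + 1)) ∧
    (c 2 = c j ∨ c 2 = c (j + 1) ∨ c 3 = c j ∨ c 3 = c (j + 1)) ∧
    ¬ (c 1 = c j ∧ c 2 = c (j + 1)) ∧ ¬ (c 1 = c (j + 1) ∧ c 2 = c j) ∧ c j ≠ c (j + 1) := by
  refine ⟨h.a1 _ _ _ _ rfl rfl (by omega) (by omega), h.a1 _ _ _ _ rfl rfl (by omega) (by omega),
    h.a1 _ _ _ _ rfl rfl (by omega) (by omega), fun k => ?_, fun k => ?_, h.ne _ _ rfl⟩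
  · exact (h.a3 0 j (j + 1) j (by omega) (by omega) (by omega) k.1 k.2).elim h1 h2
  · exact (h.a3 0 (j + 1) j j (by omega) (by omega) (by omega) k.1 k.2).elim h1 h2

theorem Fb.defect {α : Type} {n : ℤ} {c : ℤ → α} (h : Fb n c) (d : c 0 = c 3)
    (j : ℤ) (l : 5 ≤ j) (r : j + 3 ≤ n) :
    (c j = c 0 ∧ (c (j + 1) = c 1 ∨ c (j + 1) = c 2)) ∨ (c (j + 1) = c 0 ∧ (c j = c 1 ∨ c j = c 2)) := by
  have n0 := h.ne 0 1 rfl
  have n1 := h.ne 1 2 rfl
  have n2 := h.ne 2 3 rfl
  have := h.bad (d ▸ n2.symm) (d ▸ n0.symm) j l r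
  grind

theorem Fb.nine {α : Type} {c : ℤ → α} (h : Fb 9 c) (d : c 0 = c 3) (d' : c 0 = c 6) :
    c 5 = c 7 ∧ (c 5 = c 1 ∨ c 5 = c 2) := by
  have k1 := h.defect d 5 (by omega) (by omega)
  have k2 := h.defect d 6 (by omega) (by omega)
  have k3 := h.a5 0 5 6 7 (by omega) (by omega) (by omega) d
  have k4 := h.a5 0 7 6 5 (by omega) (by omega) (by omega) d
  have n5 := h.ne 5 6 rfl
  have n6 := h.ne 6 7 rfl
  norm_num at k1 k2 k3 k4
  grind

theorem Fb.nodefect {α : Type} {n : ℤ} {c : ℤ → α} (h : Fb n c) (m : ℕ) (hn : n = 9 + 2 * m) :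
    c 0 ≠ c 3 := by
  intro d
  have n0 := h.ne 0 1 rfl
  have n1 := h.ne 1 2 rfl
  have n2 := h.ne 2 3 rfl
  have n3 := h.ne 3 4 rfl
  have n4 := h.ne 4 5 rfl
  have on : ∀ j, 5 ≤ j → j ≤ n - 3 → c j = c 0 ∨ c (j + 1) = c 0 := fun j l r => by
    have := h.defect d j l (by omega)
    tauto
  have al := h.toFa.alt on (m + 1) (n - 2) (by push_cast; omega) (by omega)
  have q1 := h.per (-1) (n - 1) (by omega)
  have q2 := h.per (-2) (n - 2) (by omega)
  have q0 := h.per 0 n (by omega)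
  have n6 := h.ne (n - 2) (n - 1) (by omega)
  have n7 := h.ne (n - 1) n (by omega)
  by_cases h5 : c 5 = c 0
  · have e1 := h.a1 1 2 4 5 rfl rfl (by omega) (by omega)
    have e2 := h.a1 1 2 (n - 2) (n - 1) rfl (by omega) (by omega) (by omega)
    have t1 := h.a2 5 4 (n - 2) (n - 1) 1 2 4 (n - 2) 1 (by omega) (by omega) (by omega) (by omega) (by omega)
      (by omega)
    have t2 := h.a2 5 4 (n - 2) (n - 1) 2 1 4 (n - 2) 1 (by omega) (by omega) (by omega) (by omega) (by omega)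
      (by omega)
    have s1 := h.a7 (-1)
    have s2 := h.a7 (-2)
    norm_num at s1 s2
    rw [← q1] at s1 s2
    rw [← q2] at s2
    generalize c 0 = x0, c 1 = x1, c 2 = x2, c 3 = x3, c 4 = x4, c 5 = x5, c (n - 2) = y2, c (n - 1) = y1 at *
    grind
  · have h6 : c 6 = c 0 := (on 5 le_rfl (by omega)).resolve_left h5
    rcases Nat.eq_zero_or_pos m with rfl | hm
    · obtain rfl : n = 9 := by omega
      have k1 := h.nine d h6.symm
      have k2 := (h.shift 3).nine (show c (0 + 3) = c (3 + 3) from d.symm.trans h6.symm)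
        (show c (0 + 3) = c (6 + 3) from d.symm.trans q0.symm)
      have k3 := (h.shift 6).nine (show c (0 + 6) = c (3 + 6) from h6.trans q0.symm)
        (show c (0 + 6) = c (6 + 6) from (h6.trans d).trans (h.per 3 12 rfl).symm)
      have p1 := h.per 1 10 rfl
      have p2 := h.per 2 11 rfl
      have p4 := h.per 4 13 rfl
      have n8 := h.ne 7 8 rfl
      norm_num at k2 k3
      grind
    · have k := (h.shift 3).defect (show c (0 + 3) = c (3 + 3) from d.symm.trans h6.symm) (n - 5) (by omega)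
        (by omega)
      simp only [show n - 5 + 3 = n - 2 by omega, show n - 5 + 1 + 3 = n - 1 by omega, zero_add] at k
      grind

theorem Fb.good {α : Type} {n : ℤ} {c : ℤ → α} (h : Fb n c) (m : ℕ) (hn : n = 9 + 2 * m) :
    c 0 = c 2 ∨ c 1 = c 3 := by
  by_contra k
  push Not at k
  have d0 := h.nodefect m hn
  have d1 := (h.shift 1).nodefect m hn
  have d2 := (h.shift 2).nodefect m hn
  have d3 := (h.shift (-1)).nodefect m hn
  have d4 := (h.shift (-2)).nodefect m hn
  norm_num at d1 d2 d3 d4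
  have n0 := h.ne 0 1 rfl
  have n1 := h.ne 1 2 rfl
  have n2 := h.ne 2 3 rfl
  have al := step2 (c := c) (p := 5) (q := n - 2) (fun j l r => by
    have b1 := h.bad k.1 k.2 j l (by omega)
    have b2 := h.bad k.1 k.2 (j + 1) (by omega) (by omega)
    rw [show j + 1 + 1 = j + 2 by omega] at b2
    obtain ⟨k1, k2⟩ := k
    generalize c 0 = x0, c 1 = x1, c 2 = x2, c 3 = x3, c j = y0, c (j + 1) = y1, c (j + 2) = y2 at *
    grind) (m + 1) (n - 2) (by push_cast; omega) le_rfl
  have b := h.bad k.1 k.2 5 le_rfl (by omega)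
  have q1 := h.per (-1) (n - 1) (by omega)
  have q2 := h.per (-2) (n - 2) (by omega)
  have e1 := h.a1 1 2 (n - 2) (n - 1) rfl (by omega) (by omega) (by omega)
  have e2 := h.a1 2 3 (n - 2) (n - 1) rfl (by omega) (by omega) (by omega)
  have e3 := h.a1 0 1 4 5 rfl rfl (by omega) (by omega)
  have e4 := h.a1 1 2 4 5 rfl rfl (by omega) (by omega)
  rw [← q1] at d3
  rw [← q2] at d4
  obtain ⟨k1, k2⟩ := k
  generalize c 0 = x0, c 1 = x1, c 2 = x2, c 3 = x3, c 4 = x4, c 5 = x5, c (5 + 1) = x6, c (n - 2) = y2,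
    c (n - 1) = y1 at *
  grind

theorem Fb.two {α : Type} {n : ℤ} {c : ℤ → α} (h : Fb n c) (m : ℕ) (hn : n = 9 + 2 * m) : c 0 = c 2 := by
  by_contra k
  have g0 := (h.good m hn).resolve_left k
  have g1 := (h.shift (-1)).good m hn
  have g2 := (h.shift 3).good m hn
  have g3 := (h.shift (n - 4)).good m hn
  simp only [show 2 + (n - 4) = n - 2 by omega, show 1 + (n - 4) = n - 3 by omega,
    show 3 + (n - 4) = n - 1 by omega, zero_add] at g3
  norm_num at g1 g2
  replace g1 := g1.resolve_right k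
  have n0 := h.ne 0 1 rfl
  have n1 := h.ne 1 2 rfl
  have on : ∀ j, 5 ≤ j → j ≤ n - 4 → c j = c 1 ∨ c (j + 1) = c 1 := fun j l r => by
    have e1 := h.a1 (-1) 0 j (j + 1) rfl rfl (by omega) (by omega)
    have e2 := h.a1 2 3 j (j + 1) rfl rfl (by omega) (by omega)
    have t1 := h.a2 (-1) 0 3 2 j (j + 1) (-1) 2 j (by omega) (by omega) (by omega) (by omega) (by omega)
      (by omega)
    have t2 := h.a2 (-1) 0 3 2 (j + 1) j (-1) 2 j (by omega) (by omega) (by omega) (by omega) (by omega)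
      (by omega)
    generalize c 0 = x0, c 1 = x1, c 2 = x2, c 3 = x3, c (-1) = z, c j = y0, c (j + 1) = y1 at *
    grind
  have al := h.toFa.alt on m (n - 4) (by omega) (by omega)
  have o := on 5 le_rfl (by omega)
  have q1 := h.per (-1) (n - 1) (by omega)
  have n3 := h.ne 3 4 rfl
  have n4 := h.ne (n - 4) (n - 3) (by omega)
  have n6 := h.ne (n - 2) (n - 1) (by omega)
  norm_num at o
  grind

theorem Fb.false {α : Type} {n : ℤ} {c : ℤ → α} (h : Fb n c) (m : ℕ) (hn : n = 9 + 2 * m) : False := by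
  have k : ∀ i, c (i + 2) = c i := fun i => by
    have := (h.shift i).two m hn
    simpa only [zero_add, add_comm 2 i] using this.symm
  have h1 := step2 (c := c) (p := 1) (q := n) (fun j _ _ => k j) (m + 4) n (by push_cast; omega) le_rfl
  exact h.ne 0 1 rfl ((h.per 0 n (by omega)).symm.trans h1)

end Pool.Agent.H.MP_a55661_co
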