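import Pool.Agent.H.MP_a55661_co.B
import Pool.Agent.H.MP_a55661_co.S1
import Pool.Agent.H.MP_a55661_co.S2
import Pool.Agent.H.MP_a55661_co.S3

set_option autoImplicit false

namespace Pool.Agent.H.MP_a55661_co

variable {V : Type} {C : V → V → Prop} {col : V → V} {n : ℤ} {u : ℤ → V}

theorem Cyc.fa (g : Good C col) (h : Cyc C n u) : Fa n (fun s => col (u s)) where
  per s t e := by rw [e, h.per]
  ne s t e k := by
    subst e
    refine h.far s (col (u s)) (g.symm _ _ (g.dom _)) ?_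
    rw [show col (u s) = col (u (s + 1)) from k]
    exact g.symm _ _ (g.dom _)
  a1 i i' j j' e1 e2 e3 e4 := by
    by_contra k
    push Not at k
    obtain ⟨w, hw⟩ := h.loc g [1, 19] [2, 3, 10, 11] [] [2, 3, 10, 11] [i, i', j, j']
      (by simp; omega) (by simp; omega) (by simp) (by simpa using k)
    exact a1 hw

theorem Cyc.fb (g : Good C col) (h : Cyc C n u) (hn : 9 ≤ n) : Fb n (fun s => col (u s)) where
  toFa := h.fa g
  a2 i i' j j' k k' p q r e1 e2 e3 e4 e5 e6 k1 k2 k3 := by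
    by_contra k4
    obtain ⟨w, hw⟩ := h.loc g [1, 19, 37] [2, 3, 4, 5, 10, 11, 12, 13, 20, 21, 28, 29] [2, 12, 29] [11]
      [i, i', j, j', k, k'] (by simp; omega) (by simp; omega) (by simpa using ⟨k1, k2, k3⟩) (by simpa using k4)
    exact a2 hw
  a3 i j j' r e1 e2 e3 k1 k2 := by
    by_contra k
    push Not at k
    obtain ⟨w, hw⟩ := h.loc g [1, 10, 19, 37] [2, 3, 4, 5, 11, 12, 13, 20, 21, 28, 29] [12, 21] [2, 11]
      [i, i + 1, i + 2, i + 3, j, j'] (by simp; omega) (by simp; omega) (by simpa using ⟨k1, k2⟩)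
      (by simpa using k)
    exact a3 hw
  a5 i j k l e1 e2 e3 k1 k2 k3 k4 := by
    obtain ⟨w, hw⟩ := h.loc g [1, 10, 19, 37, 46]
      [2, 3, 4, 5, 6, 11, 12, 13, 14, 20, 21, 22, 28, 29, 30, 38] [3, 12, 5, 22] []
      [i, i + 1, i + 2, i + 3, j, k, l] (by simp; omega) (by simp; omega) (by simpa using ⟨k1, k2, k3, k4⟩)
      (by simp)
    exact a5 hw
  a7 i k1 k2 k3 k4 := by
    obtain ⟨w, hw⟩ := h.loc g [1, 10, 19, 28, 37, 46]
      [2, 3, 4, 5, 6, 11, 12, 13, 14, 20, 21, 22, 29, 30, 38] [2, 5, 12, 14] []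
      [i, i + 1, i + 2, i + 3, i + 4, i + 5, i + 6] (by simp; omega) (by simp; omega)
      (by simpa using ⟨k1, k2, k3, k4⟩) (by simp)
    exact a7 hw

theorem Cyc.false (g : Good C col) (h : Cyc C n u) (m : ℕ) (hn : n = 5 + 2 * m) : False := by
  rcases m with _ | _ | m
  · obtain rfl : n = 5 := by omega
    obtain ⟨w, hw⟩ := h.loc g [1, 10, 19, 28, 4] [2, 3, 11, 12, 20] [] [] [0, 1, 2, 3, 4]
      (by simp) (by simp) (by simp) (by simp)
    exact c5 hw
  · obtain rfl : n = 7 := by omega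
    refine seven (h.fa g) (fun i k1 k2 k3 => ?_) (fun i k1 k2 k3 k4 => ?_) (fun i k1 k2 k3 k4 => ?_)
    · obtain ⟨w, hw⟩ := h.loc g [1, 10, 19, 28, 37, 46, 6]
        [2, 3, 4, 5, 11, 12, 13, 14, 20, 21, 22, 29, 30, 38] [3, 12, 21] []
        [i, i + 1, i + 2, i + 3, i + 4, i + 5, i + 6] (by simp; omega) (by simp; omega)
        (by simpa using ⟨k1, k2, k3⟩) (by simp)
      exact c7a hw
    · obtain ⟨w, hw⟩ := h.loc g [1, 10, 19, 28, 37, 46, 6]
        [2, 3, 4, 5, 11, 12, 13, 14, 20, 21, 22, 29, 30, 38] [3, 20, 5, 14] []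
        [i, i + 1, i + 2, i + 3, i + 4, i + 5, i + 6] (by simp; omega) (by simp; omega)
        (by simpa using ⟨k1, k2, k3, k4⟩) (by simp)
      exact c7b hw
    · obtain ⟨w, hw⟩ := h.loc g [1, 10, 19, 28, 37, 46, 6]
        [2, 3, 4, 5, 11, 12, 13, 14, 20, 21, 22, 29, 30, 38] [3, 12, 5, 14] []
        [i, i + 1, i + 2, i + 3, i + 4, i + 5, i + 6] (by simp; omega) (by simp; omega)
        (by simpa using ⟨k1, k2, k3, k4⟩) (by simp)
      exact c7c hw
  · exact (h.fb g (by push_cast at hn; omega)).false m (by push_cast at hn; omega)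

theorem good_of {V : Type} (G : SimpleGraph V) (hp : IsEmpty (SimpleGraph.pathGraph 6 ↪g G))
    (hD : ∃ D : Set V, ∀ v : V, ∃! d : V, d ∈ D ∧ (d = v ∨ G.Adj d v)) :
    ∃ col, Good (fun x y => x = y ∨ G.Adj x y) col := by
  obtain ⟨D, hD⟩ := hD
  choose col h1 h2 using hD
  have sy : ∀ x y, (x = y ∨ G.Adj x y) → (y = x ∨ G.Adj y x) := fun x y h => h.imp Eq.symm SimpleGraph.Adj.symm
  refine ⟨col, sy, fun _ => Or.inl rfl, ?_, fun x => sy _ _ (h1 x).2, fun x a b ha hb =>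
    (h2 x _ ⟨(h1 a).1, sy _ _ ha⟩).trans (h2 x _ ⟨(h1 b).1, sy _ _ hb⟩).symm⟩
  intro a b c d e f ab bc cd de ef
  by_contra k
  simp only [not_or] at k
  obtain ⟨⟨ac, ac'⟩, ⟨ad, ad'⟩, ⟨ae, ae'⟩, ⟨af, af'⟩, ⟨bd, bd'⟩, ⟨be, be'⟩, ⟨bf, bf'⟩, ⟨ce, ce'⟩,
    ⟨cf, cf'⟩, df, df'⟩ := k
  have ab' : G.Adj a b := ab.resolve_left (by rintro rfl; exact bc.elim ac ac')
  have bc' : G.Adj b c := bc.resolve_left (by rintro rfl; exact ab.elim ac ac')
  have cd' : G.Adj c d := cd.resolve_left (by rintro rfl; exact bc.elim bd bd')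
  have de' : G.Adj d e := de.resolve_left (by rintro rfl; exact cd.elim ce ce')
  have ef' : G.Adj e f := ef.resolve_left (by rintro rfl; exact de.elim df df')
  have s : ∀ {x y}, ¬ G.Adj x y → ¬ G.Adj y x := fun h k => h k.symm
  have i1 : ∀ i j : Fin 6, ![a, b, c, d, e, f] i = ![a, b, c, d, e, f] j → i = j := by
    simp [Fin.forall_fin_succ,
      ab'.ne, ab'.ne', ac, Ne.symm ac, ad, Ne.symm ad, ae, Ne.symm ae, af, Ne.symm af, bc'.ne,
      bc'.ne', bd, Ne.symm bd, be, Ne.symm be, bf, Ne.symm bf, cd'.ne, cd'.ne', ce, Ne.symm ce, cf,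
      Ne.symm cf, de'.ne, de'.ne', df, Ne.symm df, ef'.ne, ef'.ne']
  have i2 : ∀ i j : Fin 6, G.Adj (![a, b, c, d, e, f] i) (![a, b, c, d, e, f] j) ↔
      (SimpleGraph.pathGraph 6).Adj i j := by
    simp [Fin.forall_fin_succ, SimpleGraph.pathGraph_adj,
      ab', ab'.symm, ac', s ac', ad', s ad', ae', s ae', af', s af', bc', bc'.symm, bd', s bd', be',
      s be', bf', s bf', cd', cd'.symm, ce', s ce', cf', s cf', de', de'.symm, df', s df', ef',
      ef'.symm]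
  exact hp.false ⟨⟨![a, b, c, d, e, f], i1⟩, fun {i j} => i2 i j⟩

theorem cyc_of {V : Type} (G : SimpleGraph V) (k : ℕ) (hk : 5 ≤ k)
    (φ : (SimpleGraph.cycleGraph k)ᶜ ↪g
      SimpleGraph.fromRel (fun u v : V => G.Adj u v ∨ ∃ w, G.Adj u w ∧ G.Adj w v)) :
    ∃ u, Cyc (fun x y => x = y ∨ G.Adj x y) k u := by
  have k0 : (0 : ℤ) < k := by omega
  let ix : ℤ → Fin k := fun s => ⟨(s % k).toNat, by
    have := Int.emod_lt_of_pos s k0
    have := Int.emod_nonneg s k0.ne'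
    omega⟩
  have hv : ∀ s, ((ix s : ℕ) : ℤ) = s % k := fun s => Int.toNat_of_nonneg (Int.emod_nonneg s k0.ne')
  have hs : ∀ s t, (((ix s - ix t : Fin k) : ℕ) : ℤ) = (s - t) % k := fun s t => by
    rw [Fin.coe_int_sub_eq_mod, hv, hv, ← Int.sub_emod]
  have hne : ∀ s t : ℤ, (s - t) % k ≠ 0 → ix s ≠ ix t := fun s t h e => by
    apply h
    rw [← hs, e]
    have : NeZero k := ⟨by omega⟩
    simp
  refine ⟨fun s => φ (ix s), fun s => ?_, fun s x h1 h2 => ?_, fun s t h1 h2 => ?_⟩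
  · congr 1
    apply Fin.ext
    simp [ix]
  · have e : (s + 1 - s) % k = 1 := by
      rw [add_sub_cancel_left]
      exact Int.emod_eq_of_lt (by omega) (by omega)
    have ne : ix (s + 1) ≠ ix s := hne _ _ (by omega)
    have ad : (SimpleGraph.cycleGraph k).Adj (ix (s + 1)) (ix s) := by
      rw [SimpleGraph.cycleGraph_adj']
      have := hs (s + 1) s
      omega
    have na := fun h => ((SimpleGraph.compl_adj _ _ _).mp (φ.map_rel_iff.mp h)).2 ad
    have ne' : φ (ix (s + 1)) ≠ φ (ix s) := fun h => ne (φ.injective h)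
    apply na
    rw [SimpleGraph.fromRel_adj]
    refine ⟨ne', ?_⟩
    rcases h1 with h1 | h1 <;> rcases h2 with h2 | h2
    · exact absurd (h2.symm.trans h1) ne'
    · exact Or.inr (Or.inl (h1 ▸ h2))
    · exact Or.inl (Or.inl (h2 ▸ h1))
    · exact Or.inl (Or.inr ⟨x, h2.symm, h1⟩)
  · have e1 : (t - s) % k = t - s := Int.emod_eq_of_lt (by omega) (by omega)
    have e2 : (s - t) % k = s - t + k := by
      rw [← Int.add_emod_right]
      exact Int.emod_eq_of_lt (by omega) (by omega)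
    have ad : (SimpleGraph.cycleGraph k)ᶜ.Adj (ix s) (ix t) := by
      rw [SimpleGraph.compl_adj, SimpleGraph.cycleGraph_adj']
      have := hs s t
      have := hs t s
      exact ⟨hne _ _ (by omega), by omega⟩
    have := φ.map_rel_iff.mpr ad
    rw [SimpleGraph.fromRel_adj] at this
    rcases this.2 with (h | ⟨w, h, h'⟩) | (h | ⟨w, h, h'⟩)
    · exact ⟨_, Or.inl rfl, Or.inr h⟩
    · exact ⟨w, Or.inr h.symm, Or.inr h'⟩
    · exact ⟨_, Or.inr h, Or.inl rfl⟩
    · exact ⟨w, Or.inr h', Or.inr h.symm⟩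

end Pool.Agent.H.MP_a55661_co
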